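import Pool.Agent.X136.GB.Main

/-!
# Positive groups on ordered Hilbert spaces: the spectral bound is the growth bound

`IsC0Group`, `Gen` (the graph of the generator), `IsResolvent` (the bounded inverse of `z - A`) and
`genSpectrum` (the spectrum of the generator) are defined in `Pool/Agent/X136/GB/Defs.lean`.
-/

set_option autoImplicit false

namespace Pool.Agent.Results.MP_e5770a_an.PositiveGroups

open Filter Topology Set
open Pool.Agent.X136.GB

variable {H E : Type} [NormedAddCommGroup H] [InnerProductSpace ℝ H] [NormedAddCommGroup E]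
  [InnerProductSpace ℂ E]

/-- The complex Hilbert space `E`, with the inclusion `ι` of the real Hilbert space `H`, is the
complexification `H ⊕ i H`: every element is `ι x + i ι y`, and the square of its norm is
`‖x‖ ^ 2 + ‖y‖ ^ 2`. -/
structure IsComplexification (ι : H →ₗ[ℝ] E) : Prop where
  norm_sq : ∀ x y, ‖ι x + Complex.I • ι y‖ ^ 2 = ‖x‖ ^ 2 + ‖y‖ ^ 2
  surj : ∀ e, ∃ x y, e = ι x + Complex.I • ι y

/-- `K` is a closed, normal and generating cone in `H`. -/
structure IsOrderCone (K : Set H) : Prop where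
  closed : IsClosed K
  add : ∀ x ∈ K, ∀ y ∈ K, x + y ∈ K
  smul : ∀ r : ℝ, 0 ≤ r → ∀ x ∈ K, r • x ∈ K
  normal : ∃ c : ℝ, 0 < c ∧ ∀ x y, x ∈ K → y - x ∈ K → ‖x‖ ≤ c * ‖y‖
  generating : ∀ x, ∃ a ∈ K, ∃ b ∈ K, x = a - b

/-- Every operator `T t` maps the cone `K` of `H` into itself. -/
def IsPositiveFamily (ι : H →ₗ[ℝ] E) (K : Set H) (T : ℝ → E →L[ℂ] E) : Prop :=
  ∀ t, ∀ x ∈ K, ∃ y ∈ K, T t (ι x) = ι y

section bridge

variable {ι : H →ₗ[ℝ] E}

theorem norm_iota (hι : IsComplexification ι) (x : H) : ‖ι x‖ = ‖x‖ := by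
  have h := hι.norm_sq x 0
  rw [map_zero, smul_zero, add_zero, norm_zero] at h
  have h2 : ‖ι x‖ ^ 2 = ‖x‖ ^ 2 := by rw [h]; ring
  exact (sq_eq_sq₀ (norm_nonneg _) (norm_nonneg _)).1 h2

/-- the real linear isomorphism `H × H → E` -/
noncomputable def Φ₀ (ι : H →ₗ[ℝ] E) : (H × H) →ₗ[ℝ] E where
  toFun p := ι p.1 + Complex.I • ι p.2
  map_add' p q := by
    simp only [Prod.fst_add, Prod.snd_add, map_add, smul_add]
    abel
  map_smul' r p := by
    simp only [Prod.smul_fst, Prod.smul_snd, map_smul, RingHom.id_apply, smul_add]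
    rw [smul_comm]

theorem Φ_bij (hι : IsComplexification ι) : Function.Bijective (Φ₀ ι) := by
  constructor
  · refine (injective_iff_map_eq_zero _).2 fun p hp => ?_
    have h := hι.norm_sq p.1 p.2
    change ι p.1 + Complex.I • ι p.2 = 0 at hp
    rw [hp, norm_zero] at h
    have h1 : ‖p.1‖ = 0 := by nlinarith [sq_nonneg ‖p.1‖, sq_nonneg ‖p.2‖]
    have h2 : ‖p.2‖ = 0 := by nlinarith [sq_nonneg ‖p.1‖, sq_nonneg ‖p.2‖]
    exact Prod.ext (norm_eq_zero.1 h1) (norm_eq_zero.1 h2)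
  · intro e
    obtain ⟨x, y, h⟩ := hι.surj e
    exact ⟨(x, y), h.symm⟩

/-- the coordinates -/
noncomputable def Φ (hι : IsComplexification ι) : (H × H) ≃ₗ[ℝ] E :=
  LinearEquiv.ofBijective (Φ₀ ι) (Φ_bij hι)

theorem Φ_symm (hι : IsComplexification ι) (x y : H) :
    (Φ hι).symm (ι x + Complex.I • ι y) = (x, y) :=
  (Φ hι).symm_apply_eq.2 rfl

theorem Φ_dec (hι : IsComplexification ι) (e : E) :
    e = ι ((Φ hι).symm e).1 + Complex.I • ι ((Φ hι).symm e).2 :=
  ((Φ hι).apply_symm_apply e).symm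

theorem Φ_norm (hι : IsComplexification ι) (e : E) :
    ‖((Φ hι).symm e).1‖ ≤ ‖e‖ ∧ ‖((Φ hι).symm e).2‖ ≤ ‖e‖ := by
  have h := hι.norm_sq ((Φ hι).symm e).1 ((Φ hι).symm e).2
  rw [← Φ_dec hι e] at h
  constructor
  · exact abs_le_of_sq_le_sq' (by nlinarith [sq_nonneg ‖((Φ hι).symm e).2‖]) (norm_nonneg _) |>.2
  · exact abs_le_of_sq_le_sq' (by nlinarith [sq_nonneg ‖((Φ hι).symm e).1‖]) (norm_nonneg _) |>.2

/-- the real part -/
noncomputable def rp (hι : IsComplexification ι) : E →L[ℝ] E :=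
  LinearMap.mkContinuous (ι ∘ₗ LinearMap.fst ℝ H H ∘ₗ (Φ hι).symm.toLinearMap) 1 (by
    intro e
    change ‖ι ((Φ hι).symm e).1‖ ≤ _
    rw [norm_iota hι, one_mul]
    exact (Φ_norm hι e).1)

/-- the imaginary part -/
noncomputable def ip (hι : IsComplexification ι) : E →L[ℝ] E :=
  LinearMap.mkContinuous (ι ∘ₗ LinearMap.snd ℝ H H ∘ₗ (Φ hι).symm.toLinearMap) 1 (by
    intro e
    change ‖ι ((Φ hι).symm e).2‖ ≤ _
    rw [norm_iota hι, one_mul]
    exact (Φ_norm hι e).2)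

theorem smul_iota (hι : IsComplexification ι) (w : ℂ) (x : H) :
    (Φ hι).symm (w • ι x) = (w.re • x, w.im • x) := by
  rw [← Φ_symm hι]
  congr 1
  rw [map_smul, map_smul, ← Complex.coe_smul, ← Complex.coe_smul, smul_smul, ← add_smul]
  congr 1
  rw [mul_comm Complex.I]
  exact (Complex.re_add_im w).symm

theorem posCone [CompleteSpace H] (hι : IsComplexification ι) {K : Set H} (hK : IsOrderCone K) :
    ∃ c, IsPosCone (ι '' K) (rp hι) (ip hι) c := by
  obtain ⟨c, hc, hn⟩ := hK.normal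
  refine ⟨c, ⟨?_, ?_, ?_, ?_, hc.le, ?_, ?_⟩⟩
  · have hiso : Isometry ι := AddMonoidHomClass.isometry_of_norm ι (norm_iota hι)
    refine ⟨hiso.isClosedEmbedding.isClosedMap _ hK.closed, ?_, ?_, ?_⟩
    · obtain ⟨a, ha, -⟩ := hK.generating 0
      have := hK.smul 0 le_rfl a ha
      rw [zero_smul] at this
      exact ⟨0, this, map_zero _⟩
    · rintro _ ⟨x, hx, rfl⟩ _ ⟨y, hy, rfl⟩
      exact ⟨x + y, hK.add x hx y hy, map_add _ _ _⟩
    · rintro r hr _ ⟨x, hx, rfl⟩
      exact ⟨r • x, hK.smul r hr x hx, map_smul _ _ _⟩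
  · rintro _ ⟨x, -, rfl⟩ w
    change ι ((Φ hι).symm (w • ι x)).1 = w.re • ι x
    rw [smul_iota, map_smul]
  · rintro _ ⟨x, -, rfl⟩ w
    change ι ((Φ hι).symm (w • ι x)).2 = w.im • ι x
    rw [smul_iota, map_smul]
  · intro u
    exact Φ_dec hι u
  · rintro _ v ⟨x, hx, rfl⟩ ⟨y, hy, hv⟩
    have hv2 : v = ι (y + x) := by rw [map_add, hv]; abel
    rw [hv2, norm_iota hι, norm_iota hι]
    exact hn x (y + x) hx (by simpa using hy)
  · intro u
    obtain ⟨a, ha, b, hb, e1⟩ := hK.generating ((Φ hι).symm u).1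
    obtain ⟨a', ha', b', hb', e2⟩ := hK.generating ((Φ hι).symm u).2
    refine ⟨_, ⟨a, ha, rfl⟩, _, ⟨b, hb, rfl⟩, _, ⟨a', ha', rfl⟩, _, ⟨b', hb', rfl⟩, ?_⟩
    rw [← map_sub, ← map_sub, ← e1, ← e2]
    exact Φ_dec hι u

end bridge

/-- **Full answer.** Let `H ≠ 0` be a real Hilbert space with a closed, normal, generating cone `K`,
let `E = H ⊕ i H` be its complexification, and let `T` be a strongly continuous group of positive
operators on `E`, with generator `A`. Then the spectrum of `A` is not empty, the real parts of its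
points are bounded above, and their supremum, the spectral bound `s(A)`, is the growth bound
`lim t⁻¹ log ‖T t‖` as `t → ∞`. -/
theorem result (H E : Type) [NormedAddCommGroup H] [InnerProductSpace ℝ H] [CompleteSpace H]
    [Nontrivial H] [NormedAddCommGroup E] [InnerProductSpace ℂ E] [CompleteSpace E]
    (ι : H →ₗ[ℝ] E) (hι : IsComplexification ι) (K : Set H) (hK : IsOrderCone K)
    (T : ℝ → E →L[ℂ] E) (hT : IsC0Group T) (hpos : IsPositiveFamily ι K T) :
    (genSpectrum T).Nonempty ∧ BddAbove (Complex.re '' genSpectrum T) ∧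
      Tendsto (fun t : ℝ => Real.log ‖T t‖ / t) atTop
        (𝓝 (sSup (Complex.re '' genSpectrum T))) := by
  obtain ⟨c, hc⟩ := posCone hι hK
  have : Nontrivial E := by
    obtain ⟨x, hx⟩ := exists_ne (0 : H)
    refine ⟨⟨ι x, 0, fun h => hx ?_⟩⟩
    rw [← norm_eq_zero, ← norm_iota hι, h, norm_zero]
  refine main_E hT hc fun t v hv => ?_
  obtain ⟨x, hx, rfl⟩ := hv
  obtain ⟨y, hy, e⟩ := hpos t x hx
  exact ⟨y, hy, e.symm⟩

end Pool.Agent.Results.MP_e5770a_an.PositiveGroups
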